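import Pool.Agent.W251.EX.Defs2
import Pool.Agent.W588.EX.CHR

/-!
# Project EX, part 2, EY-CHRY: the means of `b₁^Ω(d) b₂^Ω(d')` at almost all scales
-/

set_option autoImplicit false

namespace Pool.Agent.W571.EX

open Finset Filter
open Pool.Agent.W78.GA (Qd nm dt ip dedge nm_mul nm_cast nm_eq_zero)
open Pool.Agent.W78.EC (Gi SP)
open Pool.Agent.W251.GX (Cm)
open Pool.Agent.W251.EX
open Pool.Agent.W588.EX

open scoped Classical in
theorem corey (h1 : S_MAINY) (h2 : S_FINY)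
    (hb : ∀ (N : ℕ) (b : ℂ), 1 ≤ N → b ^ N = 1 → b ≠ 1 → ∀ (q : ℕ) (β : Gi), 1 ≤ q →
      Bt (cl q β (fun z => (bO b z).re)) ∧ Bt (cl q β (fun z => (bO b z).im)))
    (k : ℕ) (b₁ b₂ : ℂ) (hk : 1 ≤ k) (hb₁ : b₁ ^ k = 1) (hb₂ : b₂ ^ k = 1) (hne : b₂ ≠ 1)
    (q a r : ℕ) (hq : 1 ≤ q) (sw : Bool) (ε : ℝ) (hε : 0 < ε) : ∃ N₀ : ℕ, ∀ N : ℕ, N₀ ≤ N →
    ∑ X ∈ Icc 1 N, 1 / (X : ℝ) ^ 2 * ‖∑ p ∈ SP X, (if CC q a r sw p.1 p.2 then
      b₁ ^ ArithmeticFunction.cardFactors p.1 * b₂ ^ ArithmeticFunction.cardFactors p.2 else 0)‖ ≤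
      ε * Real.log N := by
  refine h2 (fun x y => if CC q a r sw x y then
      b₁ ^ ArithmeticFunction.cardFactors x * b₂ ^ ArithmeticFunction.cardFactors y else 0) ?_ ?_ ε hε
  · intro x y
    show ‖if CC q a r sw x y then _ else (0 : ℂ)‖ ≤ 1
    split_ifs
    · rw [norm_mul, norm_pow, norm_pow, norm_one_of k b₁ hk hb₁, norm_one_of k b₂ hk hb₂]
      simp
    · simp
  · intro s hs hs1 ε hε
    have hPr : Pr k (b₁ * b₂) (bO b₁) (bO b₂) :=
      ⟨bO_cm k b₁ hk hb₁, bO_cm k b₂ hk hb₂, fun π hπ => by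
        unfold bO
        rw [ArithmeticFunction.cardFactors_apply_prime hπ, pow_one, pow_one]⟩
    obtain ⟨N₀, hN₀⟩ := h1 k (b₁ * b₂) (bO b₁) (bO b₂) hPr q hq
      (fun β => hb k b₂ hk hb₂ hne q β hq) (RR q a r sw) (RR_rel q a r sw) s 1 s 1 hs hs1 le_rfl
      hs hs1 le_rfl ε hε
    refine ⟨N₀, fun N hN => ?_⟩
    have hthis := hN₀ N hN
    have hAG : ∀ X : ℕ, AG (fun e => (fun x y => if CC q a r sw x y then
        b₁ ^ ArithmeticFunction.cardFactors x * b₂ ^ ArithmeticFunction.cardFactors y else 0)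
          (nm e.1) (nm e.2)) s 1 s 1 (X : ℝ) = AG (g2 (bO b₁) (bO b₂) (RR q a r sw)) s 1 s 1 (X : ℝ) := by
      intro X
      unfold AG
      refine sum_congr rfl fun e he => ?_
      rw [mem_filter] at he
      have hdt : dt e.1 e.2 = 1 := by
        have h3 := he.1
        unfold dedge at h3
        exact (mem_filter.1 h3).2
      unfold g2 bO
      beta_reduce
      have hiff := CC_iff q a r sw e.1 e.2 hdt he.2.1
      by_cases hc : CC q a r sw (nm e.1) (nm e.2)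
      · rw [if_pos hc, if_pos (hiff.1 hc)]
      · rw [if_neg hc, if_neg (fun h => hc (hiff.2 h))]
    refine le_trans (le_of_eq (sum_congr rfl fun X _ => ?_)) hthis
    rw [hAG X]

theorem chry (h1 : S_MAINY) (h2 : S_FINY)
    (hb : ∀ (N : ℕ) (b : ℂ), 1 ≤ N → b ^ N = 1 → b ≠ 1 → ∀ (q : ℕ) (β : Gi), 1 ≤ q →
      Bt (cl q β (fun z => (bO b z).re)) ∧ Bt (cl q β (fun z => (bO b z).im))) :
    Pool.Agent.W251.EX.S_CHRY := by
  classical
  intro k b₁ b₂ hk hb₁ hb₂ hne q a r hq ε hε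
  by_cases hb2 : b₂ = 1
  · have hb1 : b₁ ≠ 1 := by
      rcases hne with h | h
      · exact h
      · exact absurd hb2 h
    obtain ⟨N₀, hN₀⟩ := corey h1 h2 hb k b₂ b₁ hk hb₂ hb₁ hb1 q a r hq true ε hε
    refine ⟨N₀, fun N hN => le_trans (le_of_eq (sum_congr rfl fun X _ => ?_)) (hN₀ N hN)⟩
    congr 2
    rw [sum_filter]
    refine sum_nbij' Prod.swap Prod.swap (fun p hp => SP_swap hp) (fun p hp => SP_swap hp)
      (fun p _ => Prod.swap_swap p) (fun p _ => Prod.swap_swap p) fun p hp => ?_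
    have hiff : CC q a r true p.swap.1 p.swap.2 ↔ Cd q a r p := by
      unfold CC Cd
      simp only [if_true, Prod.fst_swap, Prod.snd_swap]
      constructor
      · rintro ⟨n, h3, h4, h5⟩
        exact ⟨n, by rw [mul_comm]; exact h3, h4, h5⟩
      · rintro ⟨n, h3, h4, h5⟩
        exact ⟨n, by rw [mul_comm]; exact h3, h4, h5⟩
    by_cases hc : CC q a r true p.swap.1 p.swap.2
    · rw [if_pos hc, if_pos (hiff.1 hc)]
      simp only [Prod.fst_swap, Prod.snd_swap]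
      rw [mul_comm]
    · rw [if_neg hc, if_neg (fun h => hc (hiff.2 h))]
  · obtain ⟨N₀, hN₀⟩ := corey h1 h2 hb k b₁ b₂ hk hb₁ hb₂ hb2 q a r hq false ε hε
    refine ⟨N₀, fun N hN => le_trans (le_of_eq (sum_congr rfl fun X _ => ?_)) (hN₀ N hN)⟩
    congr 2
    rw [sum_filter]
    refine sum_congr rfl fun p hp => ?_
    have hiff : CC q a r false p.1 p.2 ↔ Cd q a r p := by
      unfold CC Cd
      simp only [Bool.false_eq_true, if_false]
    by_cases hc : CC q a r false p.1 p.2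
    · rw [if_pos hc, if_pos (hiff.1 hc)]
    · rw [if_neg hc, if_neg (fun h => hc (hiff.2 h))]

end Pool.Agent.W571.EX
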