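import Pool.Agent.W251.EX.Defs2
import Pool.Agent.W125.EX.SLOWQ

/-!
# Project EX, part 2, EY-SPQ: lower bound for the number of pairs in a residue class
-/

set_option autoImplicit false

namespace Pool.Agent.W571.EX

open Finset
open Pool.Agent.W78.EC (SP)
open Pool.Agent.W251.EX
open Pool.Agent.W125.EX

theorem spq : Pool.Agent.W251.EX.S_SPQ := by
  classical
  intro q a hq
  set Q := 2 * q with hQ
  have hQ1 : 1 ≤ Q := by omega
  set K := 32 * Q ^ 2 with hK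
  have hK1 : 1 ≤ K := by
    have : 1 ≤ Q ^ 2 := Nat.one_le_pow _ _ hQ1
    omega
  have hq2 : 1 ≤ q ^ 2 := Nat.one_le_pow _ _ hq
  have hT : 0 < 2 * q ^ 2 * K := by positivity
  have hqR : (1 : ℝ) ≤ q := by exact_mod_cast hq
  have hKR : (1 : ℝ) ≤ K := by exact_mod_cast hK1
  refine ⟨1 / (16 * q ^ 2 * K), by positivity, 4 ^ 6 * (2 * q ^ 2 * K), fun X hX => ?_⟩
  set j := Nat.log 4 (X / (2 * q ^ 2 * K)) with hj
  have hX' : 4 ^ 6 ≤ X / (2 * q ^ 2 * K) := (Nat.le_div_iff_mul_le hT).2 hX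
  have hj6 : 6 ≤ j := by
    rw [hj]
    exact Nat.le_log_of_pow_le (by norm_num) hX'
  have hjX : 4 ^ j * (2 * q ^ 2 * K) ≤ X := by
    refine (Nat.le_div_iff_mul_le hT).1 (Nat.pow_log_le_self 4 ?_)
    have : 0 < 4 ^ 6 := by norm_num
    omega
  have hjlow : (X : ℝ) ≤ (4 : ℝ) ^ (j + 1) * (2 * q ^ 2 * K) := by
    have h1 : X / (2 * q ^ 2 * K) < 4 ^ (j + 1) := Nat.lt_pow_succ_log_self (by norm_num) _
    have h2 : X < 4 ^ (j + 1) * (2 * q ^ 2 * K) := (Nat.div_lt_iff_lt_mul hT).1 h1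
    exact_mod_cast h2.le
  -- the pairs
  have hBm : ∀ p ∈ B Q j, 2 ^ j < p.1 ∧ p.1 ≤ 2 ^ (j + 1) ∧ 2 ^ j < p.2 ∧
      p.2 ≤ 2 ^ (j + 1) ∧ Nat.Coprime (1 + Q * p.1) (Q * p.2) := by
    intro p hp
    unfold B at hp
    rw [mem_filter, mem_product, mem_Ioc, mem_Ioc] at hp
    exact ⟨hp.1.1.1, hp.1.1.2, hp.1.2.1, hp.1.2.2, hp.2⟩
  have hnorm : ∀ p : ℕ × ℕ, 1 ≤ p.1 → p.1 ≤ 2 ^ (j + 1) → p.2 ≤ 2 ^ (j + 1) →
      (1 + Q * p.1) ^ 2 + (Q * p.2) ^ 2 ≤ K * 4 ^ j := by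
    intro p h0 h1 h2
    have h3 : 1 + Q * p.1 ≤ 2 * (Q * 2 ^ (j + 1)) := by
      have h5 : Q * p.1 ≤ Q * 2 ^ (j + 1) := Nat.mul_le_mul_left _ h1
      have h6 : 1 * 1 ≤ Q * p.1 := Nat.mul_le_mul hQ1 h0
      omega
    have h4 : Q * p.2 ≤ 2 * (Q * 2 ^ (j + 1)) := by
      have := Nat.mul_le_mul_left Q h2
      omega
    calc (1 + Q * p.1) ^ 2 + (Q * p.2) ^ 2 ≤ (2 * (Q * 2 ^ (j + 1))) ^ 2 +
          (2 * (Q * 2 ^ (j + 1))) ^ 2 := Nat.add_le_add (Nat.pow_le_pow_left h3 2)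
            (Nat.pow_le_pow_left h4 2)
      _ = K * 4 ^ j := by
          rw [hK, show (4 : ℕ) = 2 ^ 2 by norm_num, ← pow_mul]
          ring
  have hcop : ∀ p : ℕ × ℕ, Nat.Coprime ((1 + Q * p.1) ^ 2 + (Q * p.2) ^ 2) q := by
    intro p
    have e : (1 + Q * p.1) ^ 2 + (Q * p.2) ^ 2 =
        1 + q * (4 * p.1 + 4 * q * p.1 ^ 2 + 4 * q * p.2 ^ 2) := by
      rw [hQ]; ring
    rw [e]
    exact (Nat.coprime_add_mul_left_left 1 q _).2 (Nat.coprime_one_left q)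
  have hroot : ∀ p : ℕ × ℕ, ∃ n : ℕ, p ∈ B Q j → 1 ≤ n ∧
      n ≤ ((1 + Q * p.1) ^ 2 + (Q * p.2) ^ 2) * q ∧
      n ≡ a [MOD q] ∧ ((1 + Q * p.1) ^ 2 + (Q * p.2) ^ 2) ∣ n ^ 2 + 1 ∧
      (((1 + Q * p.1) ^ 2 + (Q * p.2) ^ 2 : ℕ) : ℤ) ∣ ((1 + Q * p.1 : ℕ) : ℤ) + n * (Q * p.2 : ℕ) := by
    intro p
    by_cases hp : p ∈ B Q j
    · obtain ⟨h3, h4, h5, h6, h7⟩ := hBm p hp
      obtain ⟨n, hn⟩ := root q a (1 + Q * p.1) (Q * p.2) hq (by omega)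
        (Nat.mul_pos hQ1 (by omega)) h7 (hcop p)
      exact ⟨n, fun _ => hn⟩
    · exact ⟨0, fun h => absurd h hp⟩
  choose ν hν using hroot
  obtain ⟨D, hD⟩ : ∃ D : ℕ × ℕ → ℕ, ∀ p, D p = (1 + Q * p.1) ^ 2 + (Q * p.2) ^ 2 :=
    ⟨fun p => (1 + Q * p.1) ^ 2 + (Q * p.2) ^ 2, fun _ => rfl⟩
  have hD1 : ∀ p, 1 ≤ D p := by
    intro p
    rw [hD]
    have : 1 ≤ (1 + Q * p.1) ^ 2 := Nat.one_le_pow _ _ (by omega)
    omega
  have hmul : ∀ p ∈ B Q j, D p * ((ν p ^ 2 + 1) / D p) = ν p ^ 2 + 1 := by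
    intro p hp
    have h := (hν p hp).2.2.2.1
    rw [← hD] at h
    exact Nat.mul_div_cancel' h
  have hcard : (B Q j).card ≤
      ((SP X).filter (fun p => ∃ n : ℕ, p.1 * p.2 = n ^ 2 + 1 ∧ n ≡ a [MOD q])).card := by
    refine card_le_card_of_injOn (fun p => (D p, (ν p ^ 2 + 1) / D p)) ?_ ?_
    · intro p hp
      have hp' : p ∈ B Q j := hp
      obtain ⟨h3, h4, h5, h6, h7⟩ := hBm p hp'
      obtain ⟨g1, g2, g3, g4, g5⟩ := hν p hp'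
      rw [← hD] at g2
      have h8 : D p ≤ K * 4 ^ j := by rw [hD]; exact hnorm p (by omega) h4 h6
      have h9 : D p ≤ X := by
        refine h8.trans (le_trans ?_ hjX)
        calc K * 4 ^ j = 4 ^ j * (1 * K) := by ring
          _ ≤ 4 ^ j * (2 * q ^ 2 * K) :=
            Nat.mul_le_mul_left _ (Nat.mul_le_mul_right _ (by omega))
      have h10 : (ν p ^ 2 + 1) / D p ≤ X := by
        have h2 : ν p ^ 2 ≤ (D p * q) ^ 2 := Nat.pow_le_pow_left g2 2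
        have h3 : 1 ≤ (D p * q) ^ 2 := Nat.one_le_pow _ _ (Nat.mul_pos (hD1 p) hq)
        have h11 : (ν p ^ 2 + 1) / D p ≤ 2 * q ^ 2 * D p := by
          apply Nat.div_le_of_le_mul
          calc ν p ^ 2 + 1 ≤ (D p * q) ^ 2 + (D p * q) ^ 2 := Nat.add_le_add h2 h3
            _ = D p * (2 * q ^ 2 * D p) := by ring
        refine h11.trans (le_trans ?_ hjX)
        calc 2 * q ^ 2 * D p ≤ 2 * q ^ 2 * (K * 4 ^ j) := Nat.mul_le_mul_left _ h8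
          _ = 4 ^ j * (2 * q ^ 2 * K) := by ring
      have h12 : 1 ≤ (ν p ^ 2 + 1) / D p := by
        by_contra hc
        have h0 : (ν p ^ 2 + 1) / D p = 0 := Nat.lt_one_iff.1 (not_le.1 hc)
        have := hmul p hp'
        rw [h0, mul_zero] at this
        omega
      rw [mem_coe, mem_filter]
      refine ⟨?_, ν p, hmul p hp', g3⟩
      unfold SP
      rw [mem_filter, mem_product, mem_Icc, mem_Icc]
      exact ⟨⟨⟨hD1 p, h9⟩, h12, h10⟩, ν p, hmul p hp'⟩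
    · intro p hp p' hp' h
      have hp1 : p ∈ B Q j := hp
      have hp1' : p' ∈ B Q j := hp'
      obtain ⟨h3, h4, h5, h6, h7⟩ := hBm p hp1
      obtain ⟨h3', h4', h5', h6', h7'⟩ := hBm p' hp1'
      obtain ⟨g1, g2, g3, g4, g5⟩ := hν p hp1
      obtain ⟨g1', g2', g3', g4', g5'⟩ := hν p' hp1'
      simp only [Prod.mk.injEq] at h
      obtain ⟨e1, e2⟩ := h
      have e3 : ν p ^ 2 = ν p' ^ 2 := by
        have k1 := hmul p hp1
        have k2 := hmul p' hp1'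
        rw [e2, e1] at k1
        omega
      have e4 : ν p = ν p' := Nat.pow_left_injective (n := 2) (by norm_num) e3
      rw [← e4] at g5'
      rw [hD, hD] at e1
      obtain ⟨k1, k2⟩ := inj (1 + Q * p.1) (Q * p.2) (1 + Q * p'.1) (Q * p'.2) (ν p) (by omega)
        (Nat.mul_pos hQ1 (by omega)) (by omega) (Nat.mul_pos hQ1 (by omega)) h7 h7' e1 g5 g5'
      have k3 : Q * p.1 = Q * p'.1 := by omega
      exact Prod.ext (Nat.eq_of_mul_eq_mul_left hQ1 k3) (Nat.eq_of_mul_eq_mul_left hQ1 k2)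
  have hcB := card_B Q j ⟨q, rfl⟩ hj6
  have h1 : ((B Q j).card : ℝ) ≤
      (((SP X).filter (fun p => ∃ n : ℕ, p.1 * p.2 = n ^ 2 + 1 ∧ n ≡ a [MOD q])).card : ℝ) := by
    exact_mod_cast hcard
  refine le_trans ?_ (hcB.trans h1)
  rw [one_div_mul_eq_div, div_le_iff₀ (by positivity)]
  refine hjlow.trans (le_of_eq ?_)
  rw [pow_succ]
  ring

end Pool.Agent.W571.EX
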